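import Pool.Agent.Helper44q.T.Twi
import Pool.Agent.Helper44q.E.Fin

/-! The criterion: independent proper solutions whose twists have the Hilbert property. -/

set_option autoImplicit false
set_option linter.unusedSectionVars false

namespace Pool.Agent.Helper44q.T

open IntermediateField Polynomial
open Pool.Agent.Helper44q.Q (overK mem_overK mem_range_of_fixed inv mem_inv isGalois_inv finite_inv
  Over exists_lift Diag hom_ext_sup range_eq hpf_restrict FinGen finGen_iff finGen_sub HilbertType
  hilbertType_of_hpf hpf_of_hilbertType)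
open Pool.Agent.Helper44q.E

section

variable {k Γ : Type} [Field k] [Group Γ] {L : IntermediateField k (AlgebraicClosure k)}
  {K : Type} [Field K] [Algebra k K] [Algebra L K] [IsScalarTower k L K]

/-- The twist, embedded in an algebraic closure of `K`. -/
theorem twist_embed (ρ : Γ →* (K ≃ₐ[k] K)) (θ : Gk k →* Γ) (T : Type)
    [Field T] [Algebra k T] (h : IsTwistBy (algebraMap L (AlgebraicClosure k)) (algebraMap L K) ρ θ T)
    (E : IntermediateField k (AlgebraicClosure k)) (φ : Γ ≃* (E ≃ₐ[k] E))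
    (hφ : ∀ (σ : Gk k) (z : E), σ z = φ (θ σ) z) :
    ∃ (e : E →ₐ[k] AlgebraicClosure K) (v : T →ₐ[k] AlgebraicClosure K) (ι : inv ρ →ₐ[k] T),
      (∀ (z : E) (y : L), (z : AlgebraicClosure k) = y →
        e z = algebraMap K (AlgebraicClosure K) (algebraMap L K y)) ∧
      (∀ s : inv ρ, v (ι s) = algebraMap K (AlgebraicClosure K) s) ∧
      ∀ σ : AlgebraicClosure K ≃ₐ[k] AlgebraicClosure K, ∀ g, Over ρ σ g →
        (∀ a : E, σ (e a) = e (φ g a)) → ∀ z, σ (v z) = v z := by
  obtain ⟨Ω, _, _, i, j, t, α, htop, hij, hi, hj, ht⟩ := h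
  let _ : Algebra K Ω := (j : K →+* Ω).toAlgebra
  have hjK : ∀ a, algebraMap K Ω a = j a := fun a => rfl
  have : IsScalarTower k K Ω := IsScalarTower.of_algebraMap_eq fun c => (j.commutes c).symm
  have halg : Algebra.IsAlgebraic K Ω := by
    have h1 : i.fieldRange ⊔ j.fieldRange ≤ (algebraicClosure K Ω).restrictScalars k := by
      refine sup_le ?_ ?_
      · rintro z ⟨a, rfl⟩
        have h2 : IsAlgebraic k (i a) := (Algebra.IsAlgebraic.isAlgebraic a).algHom i
        have h3 : IsAlgebraic K (i a) := h2.extendScalars (algebraMap k K).injective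
        exact mem_algebraicClosure_iff.2 h3
      · rintro z ⟨a, rfl⟩
        exact mem_algebraicClosure_iff.2 (isAlgebraic_algebraMap (A := Ω) a)
    rw [htop] at h1
    exact ⟨fun z => mem_algebraicClosure_iff.1 (h1 (IntermediateField.mem_top (x := z)))⟩
  let u : Ω →ₐ[K] AlgebraicClosure K := IsAlgClosed.lift
  let u' : Ω →ₐ[k] AlgebraicClosure K := u.restrictScalars k
  have hS : ∀ s : inv ρ, j s ∈ t.fieldRange := by
    intro s
    rw [ht]
    intro g
    rw [hj, mem_inv.1 s.2]
  let j' : inv ρ →ₐ[k] t.fieldRange :=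
    { toFun := fun s => ⟨j s, hS s⟩
      map_one' := Subtype.ext (by change j _ = 1; simp)
      map_mul' := fun a b => Subtype.ext (by change j _ = j _ * j _; simp)
      map_zero' := Subtype.ext (by change j _ = 0; simp)
      map_add' := fun a b => Subtype.ext (by change j _ = j _ + j _; simp)
      commutes' := fun c => Subtype.ext (j.commutes c) }
  let ε : T ≃ₐ[k] t.fieldRange := AlgEquiv.ofInjectiveField t
  let B : AlgebraicClosure k →ₐ[k] AlgebraicClosure K := u'.comp i
  refine ⟨B.comp E.val, u'.comp t, (ε.symm : t.fieldRange →ₐ[k] T).comp j', fun z y hzy => ?_,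
    fun s => ?_, ?_⟩
  · change u (i (z : AlgebraicClosure k)) = _
    have h1 : (z : AlgebraicClosure k) = algebraMap L (AlgebraicClosure k) y := hzy
    rw [h1, hij y, ← hjK, u.commutes]
  · change u (t (ε.symm (j' s))) = _
    have h1 : t (ε.symm (j' s)) = j s := by
      have h2 := congrArg Subtype.val (ε.apply_symm_apply (j' s))
      exact h2
    rw [h1, ← hjK, u.commutes]
  · intro σ g hσ hσ' z
    -- the restriction of `σ` to the algebraic closure of `k`
    obtain ⟨τ, hτ⟩ : ∃ τ : Gk k, ∀ a, B (τ a) = σ (B a) := by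
      let _ : Algebra (AlgebraicClosure k) (AlgebraicClosure K) :=
        (B : AlgebraicClosure k →+* AlgebraicClosure K).toAlgebra
      have : IsScalarTower k (AlgebraicClosure k) (AlgebraicClosure K) :=
        IsScalarTower.of_algebraMap_eq fun c => (B.commutes c).symm
      exact ⟨σ.restrictNormal (AlgebraicClosure k), fun a =>
        σ.restrictNormal_commutes (AlgebraicClosure k) a⟩
    have hg : θ τ = g := by
      apply φ.injective
      apply AlgEquiv.ext
      intro a
      apply Subtype.ext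
      rw [← hφ]
      apply B.toRingHom.injective
      change B (τ a) = B (φ g a)
      rw [hτ]
      exact hσ' a
    have h1 : ∀ y : Ω, ((σ : AlgebraicClosure K →ₐ[k] AlgebraicClosure K).comp u') y =
        (u'.comp (α τ : Ω →ₐ[k] Ω)) y := by
      refine hom_ext_sup htop _ _ ?_ ?_
      · rintro y ⟨a, rfl⟩
        have h2 := hτ a
        change u (i (τ a)) = σ (u (i a)) at h2
        change σ (u (i a)) = u (α τ (i a))
        rw [hi, h2]
      · rintro y ⟨a, rfl⟩
        change σ (u (j a)) = u (α τ (j a))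
        rw [hj, hg, ← hjK, ← hjK, u.commutes, u.commutes, hσ]
    have h2 := h1 (t z)
    change σ (u (t z)) = u (α τ (t z)) at h2
    have h3 : α τ (t z) = t z := (ht (t z)).1 ⟨z, rfl⟩ τ
    rw [h3] at h2
    exact h2

/-- independent proper solutions whose twists have the Hilbert property -/
theorem quot [Finite Γ] [CharZero k] [Normal k L] (ρ : Γ →* (K ≃ₐ[k] K)) (π : Γ →* (L ≃ₐ[k] L))
    (hπ : ∀ g (z : L), ρ g (algebraMap L K z) = algebraMap L K (π g z))
    (hreg : ∀ a : K, IsAlgebraic k a → a ∈ Set.range (algebraMap L K))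
    (H : ∀ r : ℕ, ∃ θ : Fin r → (Gk k →* Γ), (∀ i, IsSolution π (θ i) ∧
        Function.Surjective (θ i)) ∧
      (∀ i j, i ≠ j → ∀ x y, π x = π y → ∃ σ, θ i σ = x ∧ θ j σ = y) ∧
      ∀ i, ∃ (T : Type) (_ : Field T) (_ : Algebra k T),
        IsTwistBy (algebraMap L (AlgebraicClosure k)) (algebraMap L K) ρ (θ i) T ∧
          W560.HP.HPF k T) :
    W560.HP.HPF k (inv ρ) := by
  classical
  have hA : IsGalois k (AlgebraicClosure k) := { }
  have hcK : CharZero K := charZero_of_injective_algebraMap (algebraMap k K).injective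
  intro q P hP S₀
  have hP0 : ∀ j, P j ≠ 0 := fun j h => hP j 0 (by rw [h, eval_zero])
  obtain ⟨L', hL⟩ : ∃ L' : Finset (inv ρ)[X], ∀ Q, Q ∈ L' ↔
      ∃ j, Q ∈ UniqueFactorizationMonoid.normalizedFactors (P j) := by
    refine ⟨Finset.univ.biUnion fun j : Fin q =>
      (UniqueFactorizationMonoid.normalizedFactors (P j)).toFinset, fun Q => ?_⟩
    rw [Finset.mem_biUnion]
    simp only [Finset.mem_univ, true_and, Multiset.mem_toFinset]
  have hLi : ∀ Q ∈ L', Irreducible Q ∧ Q.Monic ∧ ∀ a : inv ρ, Q.eval a ≠ 0 := by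
    intro Q hQ
    obtain ⟨j, hj⟩ := (hL Q).1 hQ
    have h1 := UniqueFactorizationMonoid.irreducible_of_normalized_factor Q hj
    refine ⟨h1, ?_, fun a ha => ?_⟩
    · have h2 := UniqueFactorizationMonoid.normalize_normalized_factor Q hj
      rw [← h2]
      exact monic_normalize h1.ne_zero
    · obtain ⟨R, hR⟩ := UniqueFactorizationMonoid.dvd_of_mem_normalizedFactors hj
      exact hP j a (by rw [hR, eval_mul, ha, zero_mul])
  obtain ⟨θ, hθ, hindep, hT⟩ := H (L'.card + 1)
  choose T iT1 iT2 hT1 hT2 using hT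
  choose E φ hfin hgal hφ hmem using fun i => exists_field (θ i) (hθ i).2 (hθ i).1.1
  have hdis : ∀ i j, i ≠ j → E i ⊓ E j ≤ L := by
    intro i j hij z hz
    rw [← InfiniteGalois.fixedField_fixingSubgroup L, mem_fixedField_iff]
    intro σ hσ
    have h1 : π (θ i σ) = 1 := (hθ i).1.trivial fun z hz =>
      (IntermediateField.mem_fixingSubgroup_iff _ _).1 hσ z hz
    obtain ⟨τ, hτ1, hτ2⟩ := hindep i j hij (θ i σ) 1 (by rw [h1, map_one])
    have h3 : τ z = z := (hmem j z).1 hz.2 τ hτ2
    have h4 : (τ⁻¹ * σ) z = z := by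
      refine (hmem i z).1 hz.1 (τ⁻¹ * σ) ?_
      rw [MonoidHom.mem_ker, map_mul, map_inv, hτ1, inv_mul_cancel]
    change τ.symm (σ z) = z at h4
    rw [AlgEquiv.symm_apply_eq, h3] at h4
    exact h4
  have hind : ∀ i, Ind π (E i) (φ i) := by
    intro i
    refine ⟨fun z hz => ?_, fun g z y hzy => ?_⟩
    · rw [hmem]
      intro σ hσ
      exact (hθ i).1.fix (by rw [(MonoidHom.mem_ker).1 hσ, map_one]) z hz
    · obtain ⟨σ, rfl⟩ := (hθ i).2 g
      rw [← hφ, hzy, (hθ i).1.2]
  choose e v ι h0 hι hv using fun i => twist_embed (L := L) ρ (θ i) (T i) (hT1 i) (E i) (φ i) (hφ i)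
  -- one of the twists has no roots
  obtain ⟨i, hi⟩ : ∃ i, ∀ Q ∈ L', ∀ x : T i, (Q.map (ι i : inv ρ →+* T i)).eval x ≠ 0 := by
    by_contra hcon
    push Not at hcon
    choose Q hQ x hx using hcon
    obtain ⟨i, i', hne, heq⟩ := Fintype.exists_ne_map_eq_of_card_lt
      (fun i => (⟨Q i, hQ i⟩ : L')) (by simp)
    have heq' : Q i = Q i' := congrArg Subtype.val heq
    have := hfin i
    have := hgal i
    have := hfin i'
    have := hgal i'
    obtain ⟨a, ha⟩ := two_twists ρ π hπ hreg (E i) (E i') (hdis i i' hne) (φ i) (φ i') (hind i')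
      (T i) (T i') (e i) (v i) (ι i) (hι i) (hv i) (e i') (v i') (h0 i') (ι i') (hι i') (hv i')
      (Q i) (hLi _ (hQ i)).1 (hLi _ (hQ i)).2.1 (x i) (x i') (hx i) (by rw [heq']; exact hx i')
    exact (hLi _ (hQ i)).2.2 a ha
  refine hpf_restrict (ι i) (hT2 i) q P (fun j x hx => ?_) S₀
  have h1 : (UniqueFactorizationMonoid.normalizedFactors (P j)).prod ∣ P j :=
    (UniqueFactorizationMonoid.prod_normalizedFactors (hP0 j)).dvd
  have h2 : P j = C (P j).leadingCoeff *
      (UniqueFactorizationMonoid.normalizedFactors (P j)).prod :=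
    (leadingCoeff_mul_prod_normalizedFactors (P j)).symm
  rw [h2, Polynomial.map_mul, eval_mul, Polynomial.map_C, eval_C] at hx
  rcases mul_eq_zero.1 hx with h3 | h3
  · rw [map_eq_zero, leadingCoeff_eq_zero] at h3
    exact hP0 j h3
  · rw [← coe_mapRingHom, map_multiset_prod, ← coe_evalRingHom, map_multiset_prod,
      Multiset.map_map, Multiset.prod_eq_zero_iff, Multiset.mem_map] at h3
    obtain ⟨Q, hQ, hQ'⟩ := h3
    exact hi Q ((hL Q).2 ⟨j, hQ⟩) x hQ'

end

end Pool.Agent.Helper44q.T
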