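import Mathlib.FieldTheory.Galois.Basic
import Mathlib.FieldTheory.RatFunc.AsPolynomial
import Mathlib.RingTheory.AlgebraicIndependent.Defs

/-! Actions of finite groups on fields of functions: definitions. -/

set_option autoImplicit false

namespace Pool.Agent.Helper44q.T

section

variable {k L K Γ : Type} [Field k] [Field L] [Field K] [Algebra k L] [Algebra k K] [Algebra L K]
  [Group Γ]

/-- The action `ρ` of `Γ` on `K` is faithful and induces `π` on `L`, and the elements of `K` which are
algebraic over `k` are in `L`: an action on a geometrically integral variety over `L` with function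
field `K`, compatible with the action on `L`. -/
def IsActionOver (π : Γ →* (L ≃ₐ[k] L)) (ρ : Γ →* (K ≃ₐ[k] K)) : Prop :=
  Function.Injective ρ ∧ (∀ g (z : L), ρ g (algebraMap L K z) = algebraMap L K (π g z)) ∧
  ∀ a : K, IsAlgebraic k a → a ∈ Set.range (algebraMap L K)

/-- The action of `Γ` on the field `K` over `k` is multiplicative and faithful: `K = L(x_1, …, x_n)` is
the field of rational functions on a torus over `L` with the characters `∏ x_i ^ a_i`, `Γ` acts on
`L` through `π`, and `Γ` maps characters to characters. -/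
def IsTorusAction (π : Γ →* (L ≃ₐ[k] L)) (ρ : Γ →* (K ≃ₐ[k] K)) : Prop :=
  Function.Injective ρ ∧ (∀ g (z : L), ρ g (algebraMap L K z) = algebraMap L K (π g z)) ∧
  ∃ (n : ℕ) (x : Fin n → K), AlgebraicIndependent L x ∧
    IntermediateField.adjoin L (Set.range x) = ⊤ ∧
    ∀ (g : Γ) (j : Fin n), ∃ a : Fin n → ℤ, ρ g (x j) = ∏ i, x i ^ a i

/-- The action of `Γ` on the field `K` over `k` is (semi-)linear and faithful: `K = L(t_1, …, t_n)` is
the field of rational functions on a vector space over `L` with the linear forms `∑ c_i t_i`, `Γ`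
acts on `L` through `π`, and `Γ` maps linear forms to linear forms. -/
def IsLinearAction (π : Γ →* (L ≃ₐ[k] L)) (ρ : Γ →* (K ≃ₐ[k] K)) : Prop :=
  Function.Injective ρ ∧ (∀ g (z : L), ρ g (algebraMap L K z) = algebraMap L K (π g z)) ∧
  ∃ (n : ℕ) (t : Fin n → K), AlgebraicIndependent L t ∧
    IntermediateField.adjoin L (Set.range t) = ⊤ ∧
    ∀ (g : Γ) (j : Fin n), ρ g (t j) ∈ Submodule.span L (Set.range t)

/-- The embedding problem `π : Γ → Gal(L/k)` has a regular solution over the extension `S` of `k`:
there is a Galois extension `N` of `S` with group `Γ` which contains `L`, such that `π` is the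
restriction to `L` and the elements of `N` which are algebraic over `k` are in `L`. -/
def RegularlySolvable (π : Γ →* (L ≃ₐ[k] L)) (S : Type) [Field S] [Algebra k S] : Prop :=
  ∃ (N : Type) (_ : Field N) (_ : Algebra k N) (_ : Algebra S N) (_ : Algebra L N)
    (_ : IsScalarTower k S N) (_ : IsScalarTower k L N) (θ : (N ≃ₐ[S] N) ≃* Γ),
    FiniteDimensional S N ∧ IsGalois S N ∧
    (∀ (σ : N ≃ₐ[S] N) (y : L), σ (algebraMap L N y) = algebraMap L N (π (θ σ) y)) ∧
    ∀ a : N, IsAlgebraic k a → a ∈ Set.range (algebraMap L N)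

/-- `T` is the function field of the twist, by the homomorphism `θ` from the absolute Galois group
`Gal(A/k)` to `Γ`, of the variety over `L` with function field `K` and the action `ρ` of `Γ`: there
are a compositum `Ω` of `A` and `K` over `L` (`e` and `f` are the inclusions of `L` in `A` and
`K`) and an action `α` of `Gal(A/k)` on `Ω`, which is the natural one on `A` and `ρ ∘ θ` on `K`, such
that `T` is the field of the elements of `Ω` fixed by it. -/
def IsTwistBy {A : Type} [Field A] [Algebra k A] (e : L →+* A) (f : L →+* K)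
    (ρ : Γ →* (K ≃ₐ[k] K)) (θ : (A ≃ₐ[k] A) →* Γ) (T : Type) [Field T] [Algebra k T] : Prop :=
  ∃ (Ω : Type) (_ : Field Ω) (_ : Algebra k Ω) (i : A →ₐ[k] Ω) (j : K →ₐ[k] Ω) (t : T →ₐ[k] Ω)
    (α : (A ≃ₐ[k] A) →* (Ω ≃ₐ[k] Ω)), i.fieldRange ⊔ j.fieldRange = ⊤ ∧
    (∀ y : L, i (e y) = j (f y)) ∧ (∀ σ a, α σ (i a) = i (σ a)) ∧
    (∀ σ a, α σ (j a) = j (ρ (θ σ) a)) ∧ ∀ z : Ω, z ∈ t.fieldRange ↔ ∀ σ, α σ z = z

/-- `M` is the field of the functions in `K` which are invariant under `Γ` and constant on the rational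
curves of all the families `c` in `C`: `c a` is the restriction of `a` to the curve, with
parameter `t`, through the general point, which is at `t = 0`. -/
def IsInvariantField (ρ : Γ →* (K ≃ₐ[k] K)) (C : Set (K →ₐ[k] RatFunc K))
    (M : IntermediateField k K) : Prop :=
  (∀ c ∈ C, ∀ a, RatFunc.eval (RingHom.id K) 0 (c a) = a) ∧
  ∀ a, a ∈ M ↔ (∀ g, ρ g a = a) ∧ ∀ c ∈ C, c a = RatFunc.C a

end

end Pool.Agent.Helper44q.T
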