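import Pool.Agent.Helper44q.T.Tor

/-! The equivariant embedding for multiplicative actions. -/

set_option autoImplicit false

namespace Pool.Agent.Helper44q.T

open IntermediateField
open W560.HP (HilbNR HPF)
open Pool.Agent.Helper44q.Q (Rat' yv adjoin_yv algInd_yv coef1 coef1_C coef1_yv perm1 perm1_yv
  gen_E hom_ext_sup eqField hilbNR_of_fg hpf_pure reg_of_hpf FinGen finGen_iff finGen_pure)
open Pool.Agent.Helper44q.E

/-- the image of a field of rational functions in a field of rational functions is algebraically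
closed, if the other variables can be chosen independent of it -/
theorem closed_of_pure {L K R ι : Type} [Field L] [Field K] [Field R] [Algebra L K] [Algebra L R]
    [CharZero L] [Finite ι] (hL : ∃ S : Finset L, IntermediateField.adjoin ℚ (S : Set L) = ⊤)
    {n : ℕ} (x : Fin n → K) (hx : AlgebraicIndependent L x)
    (htop : IntermediateField.adjoin L (Set.range x) = ⊤) (j : K →ₐ[L] R) (y : ι → R)
    (hgen : (⊤ : IntermediateField L R) ≤ j.fieldRange ⊔ adjoin L (Set.range y))
    (htr : Algebra.trdeg L R = Cardinal.mk ι + Cardinal.mk (Fin n)) :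
    ∀ a : R, IsAlgebraic j.fieldRange a → a ∈ j.fieldRange := by
  let F₁ : IntermediateField L R := j.fieldRange
  have hgen1 : IntermediateField.adjoin F₁ (Set.range y) = ⊤ := by
    have e1 : j.fieldRange ⊔ adjoin L (Set.range y) ≤
        (IntermediateField.adjoin F₁ (Set.range y)).restrictScalars L := by
      refine sup_le (fun a ha => ?_) ?_
      · exact IntermediateField.algebraMap_mem (IntermediateField.adjoin F₁ (Set.range y))
          (⟨a, ha⟩ : F₁)
      · rw [adjoin_le_iff]
        exact subset_adjoin F₁ _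
    rw [eq_top_iff]
    intro a _
    exact e1 (hgen (IntermediateField.mem_top (x := a)))
  have htr1 : Algebra.trdeg L F₁ = Cardinal.mk (Fin n) := by
    let ε : K ≃ₐ[L] F₁ := AlgEquiv.ofInjectiveField j
    rw [← ε.trdeg_eq]
    exact trdeg_eq x hx htop
  have htr2 : Cardinal.mk ι ≤ Algebra.trdeg F₁ R := by
    have e1 := _root_.trdeg_add_eq L F₁ (A := R)
    rw [htr, htr1, add_comm] at e1
    have e2 : Cardinal.mk (Fin n) < Cardinal.aleph0 := Cardinal.mk_lt_aleph0
    exact (Cardinal.add_le_add_iff_of_lt_aleph0 e2).1 e1.ge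
  have hind : AlgebraicIndependent F₁ y := algInd_of_gen y hgen1 htr2
  have hc : CharZero F₁ := charZero_of_injective_algebraMap (algebraMap L F₁).injective
  have hfg1 : ∃ S : Finset F₁, IntermediateField.adjoin ℚ (S : Set F₁) = ⊤ := by
    have e1 : Algebra.EssFiniteType ℚ L := IntermediateField.fg_top_iff.1 hL
    have e2 : Algebra.EssFiniteType L K := finGen_iff.1 (finGen_pure x htop)
    have e3 : Algebra.EssFiniteType L F₁ :=
      (Algebra.EssFiniteType.iff_of_algEquiv (AlgEquiv.ofInjectiveField j)).1 e2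
    have e5 : Algebra.EssFiniteType ℚ F₁ := Algebra.EssFiniteType.comp ℚ L F₁
    exact IntermediateField.fg_top_iff.2 e5
  intro a ha
  obtain ⟨b, hb⟩ := reg_of_hpf (hpf_pure (hilbNR_of_fg hfg1) y hind hgen1) a ha
  rw [← hb]
  exact b.2

section

variable {k Γ : Type} [Field k] [Group Γ] {L : IntermediateField k (AlgebraicClosure k)}
  {K : Type} [Field K] [Algebra k K] [Algebra L K] [IsScalarTower k L K]

theorem embed [CharZero k]
    (hk : ∃ S : Finset k, IntermediateField.adjoin ℚ (S : Set k) = ⊤) [Finite Γ]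
    [FiniteDimensional k L] {π : Γ →* (L ≃ₐ[k] L)} {ρ : Γ →* (K ≃ₐ[k] K)}
    (h : IsTorusAction π ρ) :
    ∃ (N : ℕ) (ρ' : Γ →* (Rat' L N ≃ₐ[k] Rat' L N)) (j : K →ₐ[L] Rat' L N),
      IsSemilinear π ρ' ∧ (∀ g a, j (ρ g a) = ρ' g (j a)) ∧
      ∀ a : Rat' L N, IsAlgebraic j.fieldRange a → a ∈ j.fieldRange := by
  classical
  obtain ⟨hinj, hρ, n, x, hx, htop, hm⟩ := h
  obtain ⟨A, hA1, hAmul, hA⟩ := matrices ρ x hx hm
  have : Fintype Γ := Fintype.ofFinite Γ
  obtain ⟨N, e⟩ : ∃ N : ℕ, Nonempty (Γ × Fin n ≃ Fin N) := ⟨_, ⟨Fintype.equivFin _⟩⟩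
  obtain ⟨e⟩ := e
  let p : Γ →* Equiv.Perm (Fin N) :=
    { toFun := fun g => e.symm.trans ((Equiv.prodCongr (Equiv.mulLeft g) (Equiv.refl _)).trans e)
      map_one' := by
        ext i
        simp
      map_mul' := fun g h => by
        apply Equiv.ext
        intro i
        change e (g * h * (e.symm i).1, (e.symm i).2) =
          e (g * (e.symm (e (h * (e.symm i).1, (e.symm i).2))).1,
            (e.symm (e (h * (e.symm i).1, (e.symm i).2))).2)
        rw [e.symm_apply_apply, mul_assoc] }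
  have hp : ∀ g q, p g (e q) = e (g * q.1, q.2) := by
    intro g q
    change e ((Equiv.prodCongr (Equiv.mulLeft g) (Equiv.refl _)) (e.symm (e q))) = _
    rw [e.symm_apply_apply]
    rfl
  obtain ⟨ρ', h1, h2⟩ := perm_action π p
  let y : Γ × Fin n → Rat' L N := fun q => yv L N (e q)
  have hy : AlgebraicIndependent L y := (algInd_yv L L N).comp _ e.injective
  have hy0 : ∀ q, y q ≠ 0 := fun q => hy.ne_zero q
  have h2' : ∀ g q, ρ' g (y q) = y (g * q.1, q.2) := by
    intro g q
    change ρ' g (yv L N (e q)) = yv L N _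
    rw [h2, hp]
  let X : Fin n → Rat' L N := fun j => ∏ q, y q ^ A q.1⁻¹ q.2 j
  -- the action on the `X j`
  have hX : ∀ g j, ρ' g (X j) = ∏ l, X l ^ A g l j := by
    intro g j
    have e1 : ρ' g (X j) = ∏ q : Γ × Fin n, y (g * q.1, q.2) ^ A q.1⁻¹ q.2 j := by
      change ρ' g (∏ q, y q ^ A q.1⁻¹ q.2 j) = _
      rw [map_prod]
      exact Finset.prod_congr rfl fun q _ => by rw [map_zpow₀, h2']
    have e2 : ∏ l, X l ^ A g l j = ∏ q : Γ × Fin n, y q ^ A (q.1⁻¹ * g) q.2 j := by
      have e3 : ∀ l, X l ^ A g l j = ∏ q : Γ × Fin n, y q ^ (A q.1⁻¹ q.2 l * A g l j) := by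
        intro l
        change (∏ q, y q ^ A q.1⁻¹ q.2 l) ^ A g l j = _
        rw [← Finset.prod_zpow]
        exact Finset.prod_congr rfl fun q _ => (zpow_mul _ _ _).symm
      rw [Finset.prod_congr rfl fun l _ => e3 l, Finset.prod_comm]
      refine Finset.prod_congr rfl fun q _ => ?_
      rw [zpow_sum' (hy0 q), hAmul, Matrix.mul_apply]
    rw [e1, e2]
    refine (Fintype.prod_equiv (Equiv.prodCongr (Equiv.mulLeft g) (Equiv.refl (Fin n))) _ _
      fun q => ?_)
    change _ = y (g * q.1, q.2) ^ A ((g * q.1)⁻¹ * g) q.2 j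
    rw [mul_inv_rev, inv_mul_cancel_right]
  -- the new variables
  let z : Γ × Fin n → Rat' L N := fun q => if q.1 = 1 then X q.2 else y q
  have hXm : ∀ j, X j = y (1, j) * ∏ q : Γ × Fin n, (if q.1 = 1 then 1 else y q ^ A q.1⁻¹ q.2 j) := by
    intro j
    have e1 : ∀ q : Γ × Fin n, y q ^ A q.1⁻¹ q.2 j =
        (if q = (1, j) then y q else 1) * (if q.1 = 1 then 1 else y q ^ A q.1⁻¹ q.2 j) := by
      intro q
      by_cases hq : q.1 = 1
      · rw [if_pos hq, mul_one, hq, inv_one, hA1]
        by_cases hq2 : q.2 = j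
        · rw [if_pos (Prod.ext hq hq2), hq2, Matrix.one_apply_eq, zpow_one]
        · rw [if_neg (fun h => hq2 (congrArg Prod.snd h)), Matrix.one_apply_ne hq2, zpow_zero]
      · rw [if_neg hq, if_neg (fun h => hq (congrArg Prod.fst h)), one_mul]
    change ∏ q, y q ^ A q.1⁻¹ q.2 j = _
    rw [Finset.prod_congr rfl fun q _ => e1 q, Finset.prod_mul_distrib]
    congr 1
    rw [Finset.prod_ite_eq' Finset.univ (1, j) y, if_pos (Finset.mem_univ _)]
  have hzgen : IntermediateField.adjoin L (Set.range z) = ⊤ := by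
    have hz1 : ∀ q : Γ × Fin n, q.1 ≠ 1 → y q ∈ IntermediateField.adjoin L (Set.range z) := by
      intro q hq
      have : z q = y q := if_neg hq
      rw [← this]
      exact subset_adjoin _ _ ⟨q, rfl⟩
    have hz2 : ∀ j, X j ∈ IntermediateField.adjoin L (Set.range z) := by
      intro j
      have : z (1, j) = X j := if_pos rfl
      rw [← this]
      exact subset_adjoin _ _ ⟨(1, j), rfl⟩
    have hz3 : ∀ j, ∏ q : Γ × Fin n, (if q.1 = 1 then 1 else y q ^ A q.1⁻¹ q.2 j) ∈
        IntermediateField.adjoin L (Set.range z) := by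
      intro j
      refine prod_mem fun q _ => ?_
      by_cases hq : q.1 = 1
      · rw [if_pos hq]; exact one_mem _
      · rw [if_neg hq]; exact zpow_mem (hz1 q hq) _
    have hz4 : ∀ j, (∏ q : Γ × Fin n, (if q.1 = 1 then 1 else y q ^ A q.1⁻¹ q.2 j)) ≠ 0 := by
      intro j
      refine Finset.prod_ne_zero_iff.2 fun q _ => ?_
      by_cases hq : q.1 = 1
      · rw [if_pos hq]; exact one_ne_zero
      · rw [if_neg hq]; exact zpow_ne_zero _ (hy0 q)
    have hz5 : ∀ q, y q ∈ IntermediateField.adjoin L (Set.range z) := by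
      rintro ⟨g, j⟩
      by_cases hq : g = 1
      · rw [hq]
        have e1 : y (1, j) = X j *
            (∏ q : Γ × Fin n, (if q.1 = 1 then 1 else y q ^ A q.1⁻¹ q.2 j))⁻¹ := by
          rw [hXm j, mul_assoc, mul_inv_cancel₀ (hz4 j), mul_one]
        rw [e1]
        exact mul_mem (hz2 j) (inv_mem (hz3 j))
      · exact hz1 (g, j) hq
    rw [eq_top_iff, ← adjoin_yv L N, adjoin_le_iff]
    rintro _ ⟨i, rfl⟩
    have := hz5 (e.symm i)
    change yv L N (e (e.symm i)) ∈ _ at this
    rwa [e.apply_symm_apply] at this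
  have htr : Algebra.trdeg L (Rat' L N) = Cardinal.mk (Γ × Fin n) := by
    rw [trdeg_eq (yv L N) (algInd_yv L L N) (adjoin_yv L N)]
    exact (Cardinal.mk_congr e).symm
  have hz : AlgebraicIndependent L z := algInd_of_gen z hzgen htr.ge
  have hXi : AlgebraicIndependent L X := by
    have e1 := hz.comp (fun j : Fin n => ((1 : Γ), j)) (fun i j h => (Prod.ext_iff.1 h).2)
    have e2 : z ∘ (fun j : Fin n => ((1 : Γ), j)) = X := funext fun j => if_pos rfl
    rwa [e2] at e1
  obtain ⟨j, hj⟩ := exists_hom x hx htop X hXi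
  have heqv : ∀ g a, j (ρ g a) = ρ' g (j a) := by
    intro g a
    have ha : a ∈ IntermediateField.adjoin L (Set.range x) := by
      rw [htop]; exact IntermediateField.mem_top
    induction ha using IntermediateField.adjoin_induction with
    | mem a ha =>
      obtain ⟨i, rfl⟩ := ha
      rw [hA, hj, hX, map_prod]
      exact Finset.prod_congr rfl fun l _ => by rw [map_zpow₀, hj]
    | algebraMap c =>
      rw [hρ, j.commutes, j.commutes, h1]
    | add a b _ _ ha hb => rw [map_add, map_add, map_add, map_add, ha, hb]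
    | inv a _ ha => rw [map_inv₀, map_inv₀, map_inv₀, map_inv₀, ha]
    | mul a b _ _ ha hb => rw [map_mul, map_mul, map_mul, map_mul, ha, hb]
  refine ⟨N, ρ', j, ⟨?_, h1, N, yv L N, algInd_yv L L N, adjoin_yv L N, fun g i => ?_⟩, heqv, ?_⟩
  · intro g g' hgg
    apply hinj
    apply AlgEquiv.ext
    intro a
    apply j.toRingHom.injective
    change j (ρ g a) = j (ρ g' a)
    rw [heqv, heqv, hgg]
  · rw [h2]
    exact Submodule.subset_span ⟨p g i, rfl⟩
  · have hcard : Cardinal.mk (Γ × Fin n) =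
        Cardinal.mk {q : Γ × Fin n // q.1 ≠ 1} + Cardinal.mk (Fin n) := by
      have e1 : Γ × Fin n ≃ {q : Γ × Fin n // q.1 ≠ 1} ⊕ Fin n :=
        { toFun := fun q => if hq : q.1 = 1 then Sum.inr q.2 else Sum.inl ⟨q, hq⟩
          invFun := Sum.elim (fun q => q.1) (fun i => (1, i))
          left_inv := fun q => by
            by_cases hq : q.1 = 1
            · simp only [dif_pos hq, Sum.elim_inr]
              exact Prod.ext hq.symm rfl
            · simp only [dif_neg hq, Sum.elim_inl]
          right_inv := fun s => by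
            rcases s with ⟨q, hq⟩ | i
            · exact dif_neg hq
            · exact dif_pos rfl }
      rw [Cardinal.mk_congr e1, Cardinal.mk_sum, Cardinal.lift_id, Cardinal.lift_id]
    refine closed_of_pure (fg_ext hk L) x hx htop j (fun q : {q : Γ × Fin n // q.1 ≠ 1} => y q) ?_
      (by rw [htr, hcard])
    rw [← hzgen, adjoin_le_iff]
    rintro _ ⟨q, rfl⟩
    by_cases hq : q.1 = 1
    · have e2 : z q = X q.2 := if_pos hq
      rw [e2, ← hj]
      exact le_sup_left (a := j.fieldRange) ⟨x q.2, rfl⟩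
    · have e2 : z q = y q := if_neg hq
      rw [e2]
      exact le_sup_right (a := j.fieldRange) (subset_adjoin _ _ ⟨⟨q, hq⟩, rfl⟩)

end

end Pool.Agent.Helper44q.T
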