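import Pool.Agent.Helper44q.T.Fin

/-! Functions which are invariant under a finite group and constant on families of rational curves. -/

set_option autoImplicit false

namespace Pool.Agent.Helper44q.T

open IntermediateField AlgebraicGeometry CategoryTheory
open W560.HP (HilbNR HPF HilbertProperty)
open Pool.Agent.Helper44q.Q (Rat' inv mem_inv HilbertType FinGen hilbertType_of_hpf
  hpf_of_hilbertType finGen_sub finGen_iff hilbNR_of_fg hpf_ratFunc reg_of_hpf)
open Pool.Agent.Helper44q.E

/-- The field of the functions in `K` which are invariant under `Γ` and constant on the rational curves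
of all the families `c` in `C`. -/
def invFam {k Γ K : Type} [Field k] [Group Γ] [Field K] [Algebra k K] (ρ : Γ →* (K ≃ₐ[k] K))
    (C : Set (K →ₐ[k] RatFunc K)) : IntermediateField k K where
  carrier := {a | (∀ g, ρ g a = a) ∧ ∀ c ∈ C, c a = RatFunc.C a}
  mul_mem' := fun {a b} ha hb => ⟨fun g => by rw [map_mul, ha.1, hb.1],
    fun c hc => by rw [map_mul, ha.2 c hc, hb.2 c hc, map_mul]⟩
  add_mem' := fun {a b} ha hb => ⟨fun g => by rw [map_add, ha.1, hb.1],
    fun c hc => by rw [map_add, ha.2 c hc, hb.2 c hc, map_add]⟩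
  algebraMap_mem' := fun r => ⟨fun g => (ρ g).commutes r, fun c _ => c.commutes r⟩
  inv_mem' := fun a ha => ⟨fun g => by rw [map_inv₀, ha.1],
    fun c hc => by rw [map_inv₀, ha.2 c hc, map_inv₀]⟩

section

variable {k Γ : Type} [Field k] [Group Γ] {K : Type} [Field K] [Algebra k K]

theorem mem_invFam {ρ : Γ →* (K ≃ₐ[k] K)} {C : Set (K →ₐ[k] RatFunc K)} {a : K} :
    a ∈ invFam ρ C ↔ (∀ g, ρ g a = a) ∧ ∀ c ∈ C, c a = RatFunc.C a := Iff.rfl

theorem hilbertType_fam [CharZero k]
    (hk : ∃ S : Finset k, IntermediateField.adjoin ℚ (S : Set k) = ⊤) (hK : FinGen k K)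
    (ρ : Γ →* (K ≃ₐ[k] K)) (C : Set (K →ₐ[k] RatFunc K))
    (hC : ∀ c ∈ C, ∀ a, RatFunc.eval (RingHom.id K) 0 (c a) = a)
    (h : HilbertType k (inv ρ)) : HilbertType k (invFam ρ C) := by
  have hc0 : CharZero K := charZero_of_injective_algebraMap (algebraMap k K).injective
  have hKfg : ∃ S : Finset K, IntermediateField.adjoin ℚ (S : Set K) = ⊤ := by
    have h1 : Algebra.EssFiniteType ℚ k := IntermediateField.fg_top_iff.1 hk
    have h2 : Algebra.EssFiniteType k K := finGen_iff.1 hK
    have h3 : Algebra.EssFiniteType ℚ K := Algebra.EssFiniteType.comp ℚ k K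
    exact IntermediateField.fg_top_iff.2 h3
  have hreg : ∀ z : RatFunc K, IsAlgebraic K z → ∃ b : K, RatFunc.C b = z := fun z hz =>
    reg_of_hpf (hpf_ratFunc (hilbNR_of_fg hKfg)) z hz
  have hle : ∀ a ∈ invFam ρ C, a ∈ inv ρ := fun a ha => mem_inv.2 ha.1
  let ι : invFam ρ C →ₐ[k] inv ρ :=
    { toFun := fun a => ⟨a, hle a a.2⟩
      map_one' := rfl
      map_mul' := fun _ _ => rfl
      map_zero' := rfl
      map_add' := fun _ _ => rfl
      commutes' := fun _ => rfl }
  refine hilbertType_of_hpf (hpf_down ι (hpf_of_hilbertType (finGen_sub hK _) h)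
    fun P x hP hx => ?_)
  have hx1 : Polynomial.aeval (x : K) P = 0 := by
    have h2 := congrArg (algebraMap (inv ρ) K) hx
    rw [map_zero, ← Polynomial.eval₂_at_apply, Polynomial.eval₂_map] at h2
    rw [Polynomial.aeval_def]
    exact h2
  refine ⟨⟨x, mem_invFam.2 ⟨mem_inv.1 x.2, fun c hc => ?_⟩⟩, Subtype.ext rfl⟩
  -- `c x` is algebraic over `K`
  have h3 : IsAlgebraic K (c x) := by
    refine ⟨P.map (algebraMap (invFam ρ C) K), fun h0 => hP (Polynomial.map_injective _
      (algebraMap (invFam ρ C) K).injective (by rw [h0, Polynomial.map_zero])), ?_⟩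
    rw [Polynomial.aeval_def, Polynomial.eval₂_map]
    have h4 := congrArg (c : K →+* RatFunc K) hx1
    rw [map_zero, Polynomial.aeval_def, Polynomial.hom_eval₂] at h4
    have h5 : (algebraMap K (RatFunc K)).comp (algebraMap (invFam ρ C) K) =
        (c : K →+* RatFunc K).comp (algebraMap (invFam ρ C) K) := by
      ext s
      exact (s.2.2 c hc).symm
    rw [h5]
    exact h4
  obtain ⟨b, hb⟩ := hreg _ h3
  have h6 := hC c hc x
  rw [← hb, RatFunc.eval_C] at h6
  rw [← hb]
  exact congrArg RatFunc.C h6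

end

/-- arbitrary stabilisers -/
theorem hilbertType_arb {k : Type} [Field k] [CharZero k]
    (hk : ∃ S : Finset k, IntermediateField.adjoin ℚ (S : Set k) = ⊤)
    {L : IntermediateField k (AlgebraicClosure k)} [FiniteDimensional k L] [IsGalois k L]
    {Γ : Type} [Group Γ] [Finite Γ] {π : Γ →* (L ≃ₐ[k] L)} {K : Type} [Field K] [Algebra k K]
    [Algebra L K] [IsScalarTower k L K] {ρ : Γ →* (K ≃ₐ[k] K)} (h : IsLinearAction π ρ)
    (C : Set (K →ₐ[k] RatFunc K)) (M : IntermediateField k K)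
    (hM : IsInvariantField ρ C M)
    (H : (∀ m : ℕ, ProperlySolvable (fibPr π m)) ∨ (WeaklySolvable π ∧ SplitSolvable k)) :
    HilbertType k M := by
  obtain ⟨hC, hM⟩ := hM
  have h1 : M = invFam ρ C := by
    ext a
    rw [hM, mem_invFam]
  rw [h1]
  refine hilbertType_fam hk (IsSemilinear.finGen h) ρ C hC ?_
  rcases H with H | ⟨hw, hs⟩
  · exact hilbertType_of_fib hk h H
  · exact hilbertType_of_split hk hs h hw

section

variable {k Γ : Type} [Field k] [Group Γ] {L : IntermediateField k (AlgebraicClosure k)}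
  {K : Type} [Field K] [Algebra k K] [Algebra L K] [IsScalarTower k L K]

/-- the necessary condition, for all actions -/
theorem fib_of_action [CharZero k] [Finite Γ] [FiniteDimensional k L] [IsGalois k L]
    {π : Γ →* (L ≃ₐ[k] L)} {ρ : Γ →* (K ≃ₐ[k] K)} (hK : FinGen k K)
    (hinj : Function.Injective ρ)
    (hρ : ∀ g (z : L), ρ g (algebraMap L K z) = algebraMap L K (π g z))
    (hreg : ∀ a : K, IsAlgebraic k a → a ∈ Set.range (algebraMap L K))
    (h : HilbertType k (inv ρ)) (m : ℕ) : ProperlySolvable (fibPr π m) :=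
  fib_of_beyond (beyond_of_action hK hinj hρ hreg h) m

/-- the criterion, for all actions -/
theorem crit [Finite Γ] [CharZero k] [Normal k L] (ρ : Γ →* (K ≃ₐ[k] K)) (π : Γ →* (L ≃ₐ[k] L))
    (hπ : ∀ g (z : L), ρ g (algebraMap L K z) = algebraMap L K (π g z))
    (hreg : ∀ a : K, IsAlgebraic k a → a ∈ Set.range (algebraMap L K))
    (H : IndependentTwists π ρ) :
    HilbertType k (inv ρ) := by
  refine hilbertType_of_hpf (quot ρ π hπ hreg fun r => ?_)
  obtain ⟨θ, h1, h2, h3⟩ := H r
  refine ⟨θ, h1, h2, fun i => ?_⟩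
  obtain ⟨T, _, _, hT, hT', hT''⟩ := h3 i
  exact ⟨T, _, _, hT, hpf_of_hilbertType hT' hT''⟩

end

end Pool.Agent.Helper44q.T
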