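import Pool.Agent.Helper44q.T.Main
import Pool.Agent.Helper44q.T.Crit

/-! Quotients of tori: unconditional cases, split embedding problems; the criterion for arbitrary
actions. -/

set_option autoImplicit false

namespace Pool.Agent.Helper44q.T

open IntermediateField AlgebraicGeometry CategoryTheory
open W560.HP (HilbNR HPF HilbertProperty)
open Pool.Agent.TH178.HI (HasFunctionField)
open Pool.Agent.Y742.HC (DensePoints)
open Pool.Agent.Helper44q.Q (Rat' yv algInd_yv adjoin_yv inv mem_inv HilbertType FinGen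
  hilbertType_of_hpf hpf_of_hilbertType finGen_sub finGen_iff hilbNR_of_fg)
open Pool.Agent.Helper44q.E

section

variable {k Γ : Type} [Field k] [Group Γ] {L : IntermediateField k (AlgebraicClosure k)}
  {K : Type} [Field K] [Algebra k K] [Algebra L K] [IsScalarTower k L K]

theorem regular_mult [CharZero k]
    (hk : ∃ S : Finset k, IntermediateField.adjoin ℚ (S : Set k) = ⊤) [Finite Γ]
    [FiniteDimensional k L] [IsGalois k L] {π : Γ →* (L ≃ₐ[k] L)} {ρ : Γ →* (K ≃ₐ[k] K)}
    (h : IsTorusAction π ρ) (hr : RegularOver π (RatFunc k)) : HilbertType k (inv ρ) := by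
  have h1 : ∃ (S : Type) (_ : Field S) (_ : Algebra k S), FinGen k S ∧ HilbertType k S ∧
      RegularOver π S := ⟨RatFunc k, inferInstance, inferInstance,
    (hilbertType_ratFunc hk).1, (hilbertType_ratFunc hk).2, hr⟩
  exact ((tfae_mult hk h).out 0 3).2 h1

/-- from the linear actions to the multiplicative ones -/
theorem mult_of_linear [CharZero k]
    (hk : ∃ S : Finset k, IntermediateField.adjoin ℚ (S : Set k) = ⊤) [Finite Γ]
    [FiniteDimensional k L] [IsGalois k L] {π : Γ →* (L ≃ₐ[k] L)} {ρ : Γ →* (K ≃ₐ[k] K)}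
    (h : IsTorusAction π ρ)
    (H : ∀ (n : ℕ) (ρ' : Γ →* (Rat' L n ≃ₐ[k] Rat' L n)), IsSemilinear π ρ' →
      HilbertType k (inv ρ')) : HilbertType k (inv ρ) := by
  obtain ⟨n, ρ', hρ'⟩ := exists_semilinear π
  exact ((tfae_mult hk h).out 0 1).2 (((tfae_rel hk hρ').out 0 1).1 (H n ρ' hρ'))

theorem abelian_mult [CharZero k]
    (hk : ∃ S : Finset k, IntermediateField.adjoin ℚ (S : Set k) = ⊤) [Finite Γ]
    [FiniteDimensional k L] [IsGalois k L] {π : Γ →* (L ≃ₐ[k] L)} {ρ : Γ →* (K ≃ₐ[k] K)}
    (h : IsTorusAction π ρ) (hw : WeaklySolvable π)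
    (hab : ∀ x ∈ π.ker, ∀ y ∈ π.ker, x * y = y * x) : HilbertType k (inv ρ) :=
  mult_of_linear hk h fun _ _ hρ' => hilbertType_abelian hk hρ' hw hab

/-- permutations of variables are multiplicative actions -/
theorem exists_mult [Finite Γ] (π : Γ →* (L ≃ₐ[k] L)) :
    ∃ (n : ℕ) (ρ : Γ →* (Rat' L n ≃ₐ[k] Rat' L n)), IsTorusAction π ρ := by
  classical
  obtain ⟨n, ⟨e⟩⟩ := Finite.exists_equiv_fin Γ
  let p : Γ →* Equiv.Perm (Fin n) := (e.permCongrHom : Equiv.Perm Γ →* Equiv.Perm (Fin n)).comp
    (MulAction.toPermHom Γ Γ)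
  have hp : Function.Injective p :=
    (e.permCongrHom.injective).comp MulAction.toPerm_injective
  obtain ⟨ρ, h1, h2⟩ := perm_action π p
  refine ⟨n, ρ, ?_, h1, n, yv L n, algInd_yv L L n, adjoin_yv L n, fun g j => ?_⟩
  · intro g h hgh
    apply hp
    apply Equiv.ext
    intro i
    have h3 : ρ g (yv L n i) = ρ h (yv L n i) := AlgEquiv.congr_fun hgh _
    rw [h2, h2] at h3
    exact (algInd_yv L L n).injective h3
  · refine ⟨fun i => if i = p g j then 1 else 0, ?_⟩
    rw [h2, Finset.prod_eq_single (p g j)]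
    · change _ = _ ^ (if p g j = p g j then (1 : ℤ) else 0)
      rw [if_pos rfl, zpow_one]
    · intro i _ hi
      change _ ^ (if i = p g j then (1 : ℤ) else 0) = 1
      rw [if_neg hi, zpow_zero]
    · intro h; exact absurd (Finset.mem_univ _) h

end

/-- The question for the quotients of tori is equivalent to the solvability of all split embedding
problems. -/
theorem split_iff_mult {k : Type} [Field k] [CharZero k]
    (hk : ∃ S : Finset k, IntermediateField.adjoin ℚ (S : Set k) = ⊤) :
    SplitSolvable k ↔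
      ∀ (L : IntermediateField k (AlgebraicClosure k)) [FiniteDimensional k L] [IsGalois k L]
        (Γ : Type) [Group Γ] [Finite Γ] (π : Γ →* (L ≃ₐ[k] L)) (K : Type) [Field K] [Algebra k K]
        [Algebra L K] [IsScalarTower k L K] (ρ : Γ →* (K ≃ₐ[k] K)), IsTorusAction π ρ →
        ∀ (X : Scheme.{0}) [IsIntegral X] (p : X ⟶ Spec (CommRingCat.of k))
          [LocallyOfFiniteType p], HasFunctionField k X p (inv ρ) → DensePoints k X p →
          HilbertProperty k X p := by
  constructor
  · intro H L _ _ Γ _ _ π K _ _ _ _ ρ h X _ p _ hX hd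
    have hw : WeaklySolvable π := ((tfae_dense_mult hk h X p hX).out 0 1).1 hd
    exact (mult_of_linear hk h (fun _ _ hρ' => hilbertType_of_split hk H hρ' hw) X p hX).1
  · intro H L _ _ Γ _ _ π s hs
    obtain ⟨n, ρ, hρ⟩ := exists_mult π
    have hw : WeaklySolvable π := weak_of_section s hs
    have h1 : HilbertType k (inv ρ) := by
      intro X _ p _ hX
      have hd : DensePoints k X p := ((tfae_dense_mult hk hρ X p hX).out 0 1).2 hw
      have h2 : HilbertProperty k X p := H L Γ π _ ρ hρ X p hX hd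
      refine ⟨h2, fun hn q Y f hY h3 h4 h5 => ?_⟩
      refine h2 q Y f hY h3 h4 fun i hs => ?_
      have := hY i
      exact h5 i (Pool.Agent.W376.HP.nrm X (Y i) (f i) hn (h3 i) (h4 i) hs)
    have h2 : ∀ m : ℕ, ProperlySolvable (fibPr π m) := ((tfae_mult hk hρ).out 0 1).1 h1
    exact of_fib_one (h2 1)

end Pool.Agent.Helper44q.T
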