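import Pool.Agent.Helper44q.E.Fin

/-! Monomials and generators of fields of rational functions. -/

set_option autoImplicit false

namespace Pool.Agent.Helper44q.T

open IntermediateField

/-- generators, as many as the transcendence degree, are algebraically independent -/
theorem algInd_of_gen {F K ι : Type} [Field F] [Field K] [Algebra F K] [Finite ι] (z : ι → K)
    (hz : IntermediateField.adjoin F (Set.range z) = ⊤) (h : Cardinal.mk ι ≤ Algebra.trdeg F K) :
    AlgebraicIndependent F z := by
  have : Algebra.IsAlgebraic (Algebra.adjoin F (Set.range z)) K := by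
    refine ⟨fun a => ?_⟩
    have ha : a ∈ IntermediateField.adjoin F (Set.range z) := by
      rw [hz]; exact IntermediateField.mem_top
    rw [IntermediateField.mem_adjoin_iff_div] at ha
    obtain ⟨r, hr, s, hs, rfl⟩ := ha
    have h1 : IsAlgebraic (Algebra.adjoin F (Set.range z)) r :=
      isAlgebraic_algebraMap (A := K) (⟨r, hr⟩ : Algebra.adjoin F (Set.range z))
    have h2 : IsAlgebraic (Algebra.adjoin F (Set.range z)) s :=
      isAlgebraic_algebraMap (A := K) (⟨s, hs⟩ : Algebra.adjoin F (Set.range z))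
    rw [div_eq_mul_inv]
    exact h1.mul h2.inv
  exact (Algebra.IsAlgebraic.isTranscendenceBasis_of_le_trdeg_of_finite F z h).1

theorem trdeg_eq {F K ι : Type} [Field F] [Field K] [Algebra F K] (t : ι → K)
    (ht : AlgebraicIndependent F t) (htop : IntermediateField.adjoin F (Set.range t) = ⊤) :
    Algebra.trdeg F K = Cardinal.mk ι := by
  have : Algebra.IsAlgebraic (Algebra.adjoin F (Set.range t)) K := by
    refine ⟨fun a => ?_⟩
    have ha : a ∈ IntermediateField.adjoin F (Set.range t) := by
      rw [htop]; exact IntermediateField.mem_top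
    rw [IntermediateField.mem_adjoin_iff_div] at ha
    obtain ⟨r, hr, s, hs, rfl⟩ := ha
    have h1 : IsAlgebraic (Algebra.adjoin F (Set.range t)) r :=
      isAlgebraic_algebraMap (A := K) (⟨r, hr⟩ : Algebra.adjoin F (Set.range t))
    have h2 : IsAlgebraic (Algebra.adjoin F (Set.range t)) s :=
      isAlgebraic_algebraMap (A := K) (⟨s, hs⟩ : Algebra.adjoin F (Set.range t))
    rw [div_eq_mul_inv]
    exact h1.mul h2.inv
  have h3 : IsTranscendenceBasis F t := ht.isTranscendenceBasis_iff_isAlgebraic.2 this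
  exact h3.cardinalMk_eq_trdeg.symm

section

variable {F K ι : Type} [Field F] [Field K] [Algebra F K] [Fintype ι]

/-- algebraically independent elements are multiplicatively independent -/
theorem mon_inj {x : ι → K} (hx : AlgebraicIndependent F x) {u v : ι → ℤ}
    (h : ∏ i, x i ^ u i = ∏ i, x i ^ v i) : u = v := by
  classical
  have hx0 : ∀ i, x i ≠ 0 := fun i => hx.ne_zero i
  have h1 : ∏ i, x i ^ (u i - v i).toNat = ∏ i, x i ^ (v i - u i).toNat := by
    have h2 : ∀ i, x i ^ (u i - v i).toNat =
        x i ^ (v i - u i).toNat * (x i ^ u i * (x i ^ v i)⁻¹) := by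
      intro i
      have e1 : (x i ^ (u i - v i).toNat : K) = x i ^ ((u i - v i).toNat : ℤ) :=
        (zpow_natCast _ _).symm
      have e2 : (x i ^ (v i - u i).toNat : K) = x i ^ ((v i - u i).toNat : ℤ) :=
        (zpow_natCast _ _).symm
      rw [e1, e2, ← zpow_neg, ← zpow_add₀ (hx0 i), ← zpow_add₀ (hx0 i)]
      congr 1
      omega
    rw [Finset.prod_congr rfl fun i _ => h2 i, Finset.prod_mul_distrib, Finset.prod_mul_distrib,
      Finset.prod_inv_distrib, h, mul_inv_cancel₀, mul_one]
    exact Finset.prod_ne_zero_iff.2 fun i _ => zpow_ne_zero _ (hx0 i)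
  have h3 : ∀ w : ι → ℕ, ∏ i, x i ^ w i =
      MvPolynomial.aeval x (MvPolynomial.monomial (Finsupp.equivFunOnFinite.symm w) (1 : F)) := by
    intro w
    rw [MvPolynomial.aeval_monomial, map_one, one_mul, Finsupp.prod_fintype _ _ (fun _ => pow_zero _)]
    rfl
  rw [h3, h3] at h1
  have h4 := (algebraicIndependent_iff_injective_aeval.1 hx) h1
  have h5 := (MvPolynomial.monomial_left_injective (one_ne_zero (α := F))) h4
  have h6 := Finsupp.equivFunOnFinite.symm.injective h5
  funext i
  have h7 : (u i - v i).toNat = (v i - u i).toNat := congrFun h6 i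
  omega

theorem zpow_sum' {β : Type} {x : K} (hx : x ≠ 0) (s : Finset β) (f : β → ℤ) :
    ∏ i ∈ s, x ^ f i = x ^ ∑ i ∈ s, f i := by
  classical
  induction s using Finset.induction_on with
  | empty => simp
  | insert a s ha ih => rw [Finset.prod_insert ha, Finset.sum_insert ha, ih, zpow_add₀ hx]

theorem mon_ne_zero {x : ι → K} (hx : ∀ i, x i ≠ 0) (u : ι → ℤ) : ∏ i, x i ^ u i ≠ 0 :=
  Finset.prod_ne_zero_iff.2 fun i _ => zpow_ne_zero _ (hx i)

end

section

variable {k K L Γ : Type} [Field k] [Field K] [Field L] [Algebra k K] [Algebra L K] [Group Γ]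

/-- the matrices of a multiplicative action -/
theorem matrices (ρ : Γ →* (K ≃ₐ[k] K)) {n : ℕ} (x : Fin n → K) (hx : AlgebraicIndependent L x)
    (h : ∀ g j, ∃ a : Fin n → ℤ, ρ g (x j) = ∏ i, x i ^ a i) :
    ∃ M : Γ → Matrix (Fin n) (Fin n) ℤ, M 1 = 1 ∧ (∀ g h, M (g * h) = M g * M h) ∧
      ∀ g j, ρ g (x j) = ∏ i, x i ^ M g i j := by
  classical
  choose a ha using h
  have hx0 : ∀ i, x i ≠ 0 := fun i => hx.ne_zero i
  refine ⟨fun g => Matrix.of fun i j => a g j i, ?_, fun g h => ?_, fun g j => ?_⟩
  · ext i j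
    have h1 : ∏ i, x i ^ a 1 j i = ∏ i, x i ^ ((1 : Matrix (Fin n) (Fin n) ℤ) i j) := by
      rw [← ha, map_one, AlgEquiv.one_apply, Finset.prod_eq_single j]
      · rw [Matrix.one_apply_eq, zpow_one]
      · intro i _ hi
        rw [Matrix.one_apply_ne hi, zpow_zero]
      · intro h; exact absurd (Finset.mem_univ j) h
    exact congrFun (mon_inj hx h1) i
  · ext i j
    have h1 : ∏ i, x i ^ a (g * h) j i = ∏ i, x i ^ ∑ l, a g l i * a h j l := by
      rw [← ha, map_mul, AlgEquiv.mul_apply, ha, map_prod]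
      have h2 : ∀ l, ρ g (x l ^ a h j l) = ∏ i, x i ^ (a g l i * a h j l) := by
        intro l
        rw [map_zpow₀, ha, ← Finset.prod_zpow]
        exact Finset.prod_congr rfl fun i _ => (zpow_mul _ _ _).symm
      rw [Finset.prod_congr rfl fun l _ => h2 l, Finset.prod_comm]
      refine Finset.prod_congr rfl fun i _ => ?_
      exact zpow_sum' (hx0 i) _ _
    have h3 := congrFun (mon_inj hx h1) i
    rw [Matrix.mul_apply]
    exact h3
  · exact ha g j

end

end Pool.Agent.Helper44q.T
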