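import Pool.Agent.Helper44q.T.Emb

/-! The Hilbert property for quotients of tori. -/

set_option autoImplicit false

namespace Pool.Agent.Helper44q.T

open IntermediateField AlgebraicGeometry CategoryTheory Polynomial
open W560.HP (HilbNR HPF HilbertProperty)
open Pool.Agent.TH178.HI (HasFunctionField)
open Pool.Agent.Y742.HC (DensePoints)
open Pool.Agent.Helper44q.Q (Rat' yv inv mem_inv hpf_restrict HilbertType FinGen hilbertType_of_hpf
  hpf_of_hilbertType finGen_sub exists_autG finite_inv isGalois_inv hilbNR_of_fg)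
open Pool.Agent.Helper44q.E

/-- the Hilbert property of a field of functions passes to algebraically closed subfields -/
theorem hpf_down {k S T : Type} [Field k] [Field S] [Field T] [Algebra k S] [Algebra k T]
    (ι : S →ₐ[k] T) (hT : HPF k T)
    (hcl : ∀ (P : S[X]) (x : T), P ≠ 0 → (P.map (ι : S →+* T)).eval x = 0 → ∃ s, ι s = x) :
    HPF k S := by
  intro q P hP S₀
  have hP0 : ∀ j, P j ≠ 0 := fun j h => hP j 0 (by rw [h, eval_zero])
  refine hpf_restrict ι hT q P (fun j x hx => ?_) S₀
  obtain ⟨s, rfl⟩ := hcl (P j) x (hP0 j) hx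
  apply hP j s
  have h1 : ((P j).map (ι : S →+* T)).eval (ι s) = ι ((P j).eval s) := by
    rw [Polynomial.eval_map]
    exact eval₂_at_apply (ι : S →+* T) s
  rw [h1] at hx
  exact (map_eq_zero ι).1 hx

section

variable {k Γ : Type} [Field k] [Group Γ] {K M : Type} [Field K] [Algebra k K] [Field M]
  [Algebra k M]

/-- the fields of invariants of an equivariant embedding -/
theorem hpf_inv_down {ρ : Γ →* (K ≃ₐ[k] K)} {ρ' : Γ →* (M ≃ₐ[k] M)} (j : K →ₐ[k] M)
    (hj : ∀ g a, j (ρ g a) = ρ' g (j a))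
    (hcl : ∀ a : M, IsAlgebraic j.fieldRange a → a ∈ j.fieldRange) (h : HPF k (inv ρ')) :
    HPF k (inv ρ) := by
  have hm : ∀ s : inv ρ, j s ∈ inv ρ' := fun s => mem_inv.2 fun g => by
    rw [← hj, mem_inv.1 s.2]
  let ι : inv ρ →ₐ[k] inv ρ' :=
    { toFun := fun s => ⟨j s, hm s⟩
      map_one' := Subtype.ext (map_one j)
      map_mul' := fun a b => Subtype.ext (map_mul j _ _)
      map_zero' := Subtype.ext (map_zero j)
      map_add' := fun a b => Subtype.ext (map_add j _ _)
      commutes' := fun c => Subtype.ext (j.commutes c) }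
  refine hpf_down ι h fun P x hP hx => ?_
  let β : inv ρ →+* j.fieldRange :=
    { toFun := fun s => ⟨j s, ⟨s, rfl⟩⟩
      map_one' := Subtype.ext (map_one j)
      map_mul' := fun a b => Subtype.ext (map_mul j _ _)
      map_zero' := Subtype.ext (map_zero j)
      map_add' := fun a b => Subtype.ext (map_add j _ _) }
  have h1 : IsAlgebraic j.fieldRange (x : M) := by
    refine ⟨P.map β, fun h0 => hP (Polynomial.map_injective β β.injective (by
      rw [h0, Polynomial.map_zero])), ?_⟩
    rw [aeval_def, eval₂_map]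
    have h2 := congrArg (algebraMap (inv ρ') M) hx
    rw [map_zero, ← eval₂_at_apply, eval₂_map] at h2
    exact h2
  obtain ⟨b, hb⟩ := hcl x h1
  have hb' : j b = x := hb
  have h3 : b ∈ inv ρ := mem_inv.2 fun g => by
    apply j.toRingHom.injective
    change j (ρ g b) = j b
    rw [hj, hb', mem_inv.1 x.2]
  exact ⟨⟨b, h3⟩, Subtype.ext hb⟩

end

section

variable {k Γ : Type} [Field k] [Group Γ] {L : IntermediateField k (AlgebraicClosure k)}
  {K : Type} [Field K] [Algebra k K] [Algebra L K] [IsScalarTower k L K]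

/-- a faithful action on a field in which `L` is algebraically closed is a regular solution over the
field of invariants -/
theorem regularOver_of_action [Finite Γ] {π : Γ →* (L ≃ₐ[k] L)} {ρ : Γ →* (K ≃ₐ[k] K)}
    (hinj : Function.Injective ρ)
    (hρ : ∀ g (z : L), ρ g (algebraMap L K z) = algebraMap L K (π g z))
    (hreg : ∀ a : K, IsAlgebraic k a → a ∈ Set.range (algebraMap L K)) :
    RegularOver π (inv ρ) := by
  obtain ⟨θ, hθ⟩ := exists_autG ρ hinj
  refine ⟨K, inferInstance, inferInstance, inferInstance, inferInstance,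
    IsScalarTower.of_algebraMap_eq fun _ => rfl, inferInstance, θ, finite_inv ρ, isGalois_inv ρ,
    fun σ y => ?_, hreg⟩
  rw [← hθ, hρ]

/-- the necessary condition, for all actions -/
theorem beyond_of_action [CharZero k] [Finite Γ] [FiniteDimensional k L] [IsGalois k L]
    {π : Γ →* (L ≃ₐ[k] L)} {ρ : Γ →* (K ≃ₐ[k] K)} (hK : FinGen k K)
    (hinj : Function.Injective ρ)
    (hρ : ∀ g (z : L), ρ g (algebraMap L K z) = algebraMap L K (π g z))
    (hreg : ∀ a : K, IsAlgebraic k a → a ∈ Set.range (algebraMap L K))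
    (h : HilbertType k (inv ρ)) (L' : IntermediateField k (AlgebraicClosure k))
    (hL' : FiniteDimensional k L') : SolvableBeyond π L' :=
  beyond_of_regular π (finGen_sub hK _) (fun X _ p _ hX => (h X p hX).1)
    (regularOver_of_action hinj hρ hreg) L'

theorem tfae_mult [CharZero k]
    (hk : ∃ S : Finset k, IntermediateField.adjoin ℚ (S : Set k) = ⊤) [Finite Γ]
    [FiniteDimensional k L] [IsGalois k L] {π : Γ →* (L ≃ₐ[k] L)} {ρ : Γ →* (K ≃ₐ[k] K)}
    (h : IsTorusAction π ρ) :
    [HilbertType k (inv ρ),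
      ∀ m : ℕ, ProperlySolvable (fibPr π m),
      ∀ L' : IntermediateField k (AlgebraicClosure k), FiniteDimensional k L' →
        SolvableBeyond π L',
      ∃ (S : Type) (_ : Field S) (_ : Algebra k S), FinGen k S ∧ HilbertType k S ∧
        RegularOver π S].TFAE := by
  tfae_have 1 → 4 := fun h1 => ⟨inv ρ, inferInstance, inferInstance, finGen_sub h.finGen _, h1,
    regularOver_of_action h.1 h.2.1 (h.reg hk)⟩
  tfae_have 4 → 3 := by
    rintro ⟨S, _, _, hS, hHT, hreg⟩ L' hL'
    exact beyond_of_regular π hS (fun X _ p _ hX => (hHT X p hX).1) hreg L'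
  tfae_have 3 → 2 := fun h1 m => fib_of_beyond h1 m
  tfae_have 2 → 1 := by
    intro h1
    obtain ⟨N, ρ', j, hs, hj, hcl⟩ := embed hk h
    have h2 : HilbertType k (inv ρ') := hilbertType_of_fib hk hs h1
    have h3 : HPF k (inv ρ') := hpf_of_hilbertType (finGen_inv hs) h2
    exact hilbertType_of_hpf (hpf_inv_down (j.restrictScalars k) hj hcl h3)
  tfae_finish

/-- dense points, weak solutions, unirationality -/
theorem tfae_dense_mult [CharZero k]
    (hk : ∃ S : Finset k, IntermediateField.adjoin ℚ (S : Set k) = ⊤) [Finite Γ]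
    [FiniteDimensional k L] {π : Γ →* (L ≃ₐ[k] L)} {ρ : Γ →* (K ≃ₐ[k] K)}
    (h : IsTorusAction π ρ) (X : Scheme.{0}) (p : X ⟶ Spec (CommRingCat.of k)) [IsIntegral X]
    [LocallyOfFiniteType p] (hX : HasFunctionField k X p (inv ρ)) :
    [DensePoints k X p, WeaklySolvable π,
      ∃ n : ℕ, Nonempty (inv ρ →ₐ[k] FractionRing (MvPolynomial (Fin n) k))].TFAE := by
  obtain ⟨e, he⟩ := hX
  tfae_have 1 → 2 := by
    intro hd
    have hav := Pool.Agent.R70.HC.av_of_dense k (inv ρ) X p e he hd
    exact weak_of_points π (finGen_sub h.finGen _) (fun F => by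
      obtain ⟨B, φ, h1, -⟩ := hav F
      exact ⟨B, φ, h1⟩) (regularOver_of_action h.1 h.2.1 (h.reg hk))
  tfae_have 2 → 3 := by
    intro hw
    obtain ⟨N, ρ', j, hs, hj, -⟩ := embed hk h
    obtain ⟨n, ⟨ψ⟩⟩ := embed_of_weak hs hw
    have hm : ∀ s : inv ρ, j s ∈ inv ρ' := fun s => mem_inv.2 fun g => by
      rw [← hj, mem_inv.1 s.2]
    let ι : inv ρ →ₐ[k] inv ρ' :=
      { toFun := fun s => ⟨j s, hm s⟩
        map_one' := Subtype.ext (map_one j)
        map_mul' := fun a b => Subtype.ext (map_mul j _ _)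
        map_zero' := Subtype.ext (map_zero j)
        map_add' := fun a b => Subtype.ext (map_add j _ _)
        commutes' := fun c => Subtype.ext ((j.restrictScalars k).commutes c) }
    exact ⟨n, ⟨ψ.comp ι⟩⟩
  tfae_have 3 → 1 := by
    rintro ⟨n, ⟨ι⟩⟩
    exact Pool.Agent.Helper44q.S.dense_of_embed k (hilbNR_of_fg hk) (inv ρ) ι X p e he
  tfae_finish

end

end Pool.Agent.Helper44q.T
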