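import Pool.Agent.Helper44q.T.Gen
import Pool.Agent.Helper44q.T.Defs

/-! Multiplicative actions: the field of functions on a torus is embedded equivariantly in a field of
rational functions in variables which are permuted. -/

set_option autoImplicit false

namespace Pool.Agent.Helper44q.T

open IntermediateField
open W560.HP (HilbNR HPF)
open Pool.Agent.Helper44q.Q (Rat' yv adjoin_yv algInd_yv coef1 coef1_C coef1_yv perm1 perm1_yv
  gen_E hom_ext_sup eqField hilbNR_of_fg hpf_pure reg_of_hpf FinGen finGen_iff finGen_pure)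
open Pool.Agent.Helper44q.E

section

variable {k Γ : Type} [Field k] [Group Γ] {L : IntermediateField k (AlgebraicClosure k)}

/-- the action of `Γ` on the rational functions over `L` in variables which are permuted -/
theorem perm_action (π : Γ →* (L ≃ₐ[k] L)) {N : ℕ} (p : Γ →* Equiv.Perm (Fin N)) :
    ∃ ρ : Γ →* (Rat' L N ≃ₐ[k] Rat' L N),
      (∀ g (c : L), ρ g (algebraMap L (Rat' L N) c) = algebraMap L (Rat' L N) (π g c)) ∧
      ∀ g i, ρ g (yv L N i) = yv L N (p g i) := by
  let f : Γ → (Rat' L N ≃ₐ[k] Rat' L N) := fun g =>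
    coef1 N (π g) * (perm1 L N (p g)).restrictScalars k
  have hfC : ∀ g c, f g (algebraMap L (Rat' L N) c) = algebraMap L (Rat' L N) (π g c) := by
    intro g c
    change coef1 N (π g) (perm1 L N (p g) (algebraMap L (Rat' L N) c)) = _
    rw [(perm1 L N (p g)).commutes, coef1_C]
  have hfy : ∀ g i, f g (yv L N i) = yv L N (p g i) := by
    intro g i
    change coef1 N (π g) (perm1 L N (p g) (yv L N i)) = _
    rw [perm1_yv, coef1_yv]
  have hext : ∀ u v : Rat' L N ≃ₐ[k] Rat' L N, (∀ c : L, u (algebraMap L (Rat' L N) c) =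
      v (algebraMap L (Rat' L N) c)) → (∀ i, u (yv L N i) = v (yv L N i)) → u = v := by
    intro u v h1 h2
    apply AlgEquiv.ext
    intro z
    refine hom_ext_sup (gen_E (k := k) (E := L) N) (u : Rat' L N →ₐ[k] Rat' L N)
      (v : Rat' L N →ₐ[k] Rat' L N) ?_ ?_ z
    · rintro _ ⟨a, rfl⟩
      exact h1 a
    · intro y hy
      have h : (adjoin k (Set.range (yv L N))) ≤
          eqField (u : Rat' L N →ₐ[k] Rat' L N) (v : Rat' L N →ₐ[k] Rat' L N) := by
        rw [adjoin_le_iff]
        rintro _ ⟨i, rfl⟩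
        exact h2 i
      exact h hy
  let ρ : Γ →* (Rat' L N ≃ₐ[k] Rat' L N) :=
    { toFun := f
      map_one' := hext _ _ (fun c => by rw [hfC, map_one]; rfl) (fun i => by
        rw [hfy, map_one]; rfl)
      map_mul' := fun g h => hext _ _ (fun c => by
        rw [hfC, AlgEquiv.mul_apply, hfC, hfC, map_mul]; rfl) (fun i => by
        rw [hfy, AlgEquiv.mul_apply, hfy, hfy, map_mul]; rfl) }
  exact ⟨ρ, hfC, hfy⟩

/-- the constants in a field of functions on a torus over `L` -/
theorem IsTorusAction.reg [CharZero k]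
    (hk : ∃ S : Finset k, IntermediateField.adjoin ℚ (S : Set k) = ⊤) [FiniteDimensional k L]
    {π : Γ →* (L ≃ₐ[k] L)} {K : Type} [Field K] [Algebra k K] [Algebra L K] [IsScalarTower k L K]
    {ρ : Γ →* (K ≃ₐ[k] K)} (h : IsTorusAction π ρ) (a : K) (ha : IsAlgebraic k a) :
    a ∈ Set.range (algebraMap L K) := by
  obtain ⟨-, -, n, t, ht, htop, -⟩ := h
  have h1 : HilbNR L := hilbNR_of_fg (fg_ext hk L)
  exact reg_of_hpf (hpf_pure h1 t ht htop) a (ha.extendScalars (algebraMap k L).injective)

theorem IsTorusAction.finGen [FiniteDimensional k L]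
    {π : Γ →* (L ≃ₐ[k] L)} {K : Type} [Field K] [Algebra k K] [Algebra L K] [IsScalarTower k L K]
    {ρ : Γ →* (K ≃ₐ[k] K)} (h : IsTorusAction π ρ) : FinGen k K := by
  obtain ⟨-, -, n, t, ht, htop, -⟩ := h
  have h1 : Algebra.EssFiniteType L K := finGen_iff.1 (finGen_pure t htop)
  rw [finGen_iff]
  exact Algebra.EssFiniteType.comp k L K

end

/-- the homomorphism which maps algebraically independent generators to algebraically independent
elements -/
theorem exists_hom {L K M : Type} [Field L] [Field K] [Field M] [Algebra L K] [Algebra L M] {n : ℕ}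
    (x : Fin n → K) (hx : AlgebraicIndependent L x)
    (htop : IntermediateField.adjoin L (Set.range x) = ⊤) (X : Fin n → M)
    (hX : AlgebraicIndependent L X) : ∃ j : K →ₐ[L] M, ∀ i, j (x i) = X i := by
  let e₁ : FractionRing (MvPolynomial (Fin n) L) ≃ₐ[L] adjoin L (Set.range x) := hx.aevalEquivField
  let e₂ : adjoin L (Set.range x) ≃ₐ[L] K :=
    (IntermediateField.equivOfEq htop).trans IntermediateField.topEquiv
  let e₃ : FractionRing (MvPolynomial (Fin n) L) ≃ₐ[L] adjoin L (Set.range X) := hX.aevalEquivField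
  have h1 : ∀ i, e₂ (e₁ (algebraMap (MvPolynomial (Fin n) L) (FractionRing (MvPolynomial (Fin n) L)) (MvPolynomial.X i))) = x i := by
    intro i
    change ((e₁ (algebraMap (MvPolynomial (Fin n) L) (FractionRing (MvPolynomial (Fin n) L)) (MvPolynomial.X i)) : adjoin L (Set.range x)) : K) = x i
    rw [show e₁ = hx.aevalEquivField from rfl, hx.aevalEquivField_algebraMap_apply_coe,
      MvPolynomial.aeval_X]
  have h2 : ∀ i, ((e₃ (algebraMap (MvPolynomial (Fin n) L) (FractionRing (MvPolynomial (Fin n) L)) (MvPolynomial.X i)) : adjoin L (Set.range X)) : M) = X i := by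
    intro i
    rw [show e₃ = hX.aevalEquivField from rfl, hX.aevalEquivField_algebraMap_apply_coe,
      MvPolynomial.aeval_X]
  refine ⟨(adjoin L (Set.range X)).val.comp ((e₃ : _ →ₐ[L] adjoin L (Set.range X)).comp
    ((e₁.trans e₂).symm : K →ₐ[L] FractionRing (MvPolynomial (Fin n) L))), fun i => ?_⟩
  change ((e₃ ((e₁.trans e₂).symm (x i)) : adjoin L (Set.range X)) : M) = X i
  have h3 : (e₁.trans e₂).symm (x i) =
      algebraMap (MvPolynomial (Fin n) L) (FractionRing (MvPolynomial (Fin n) L)) (MvPolynomial.X i) := by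
    rw [AlgEquiv.symm_apply_eq]
    exact (h1 i).symm
  rw [h3, h2]

end Pool.Agent.Helper44q.T
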