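import Pool.Agent.Helper44q.T.Defs
import Pool.Agent.Helper44q.E.Defs

/-! Independent proper solutions whose twists have the Hilbert property: definition. -/

set_option autoImplicit false

namespace Pool.Agent.Helper44q.T

open Pool.Agent.Helper44q.E
open Pool.Agent.Helper44q.Q (FinGen HilbertType)

/-- For every `r` there are `r` proper solutions of the embedding problem `π`, any two of them
independent (together they are onto the fibre product of `Γ` with itself), such that the twists of
the action `ρ` by them have the Hilbert property. -/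
def IndependentTwists {k Γ : Type} [Field k] [Group Γ]
    {L : IntermediateField k (AlgebraicClosure k)} {K : Type} [Field K] [Algebra k K] [Algebra L K]
    (π : Γ →* (L ≃ₐ[k] L)) (ρ : Γ →* (K ≃ₐ[k] K)) : Prop :=
  ∀ r : ℕ, ∃ θ : Fin r → (Gk k →* Γ), (∀ i, IsSolution π (θ i) ∧ Function.Surjective (θ i)) ∧
    (∀ i j, i ≠ j → ∀ x y, π x = π y → ∃ σ, θ i σ = x ∧ θ j σ = y) ∧
    ∀ i, ∃ (T : Type) (_ : Field T) (_ : Algebra k T),
      IsTwistBy (algebraMap L (AlgebraicClosure k)) (algebraMap L K) ρ (θ i) T ∧
        FinGen k T ∧ HilbertType k T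

/-- The embedding problems given by all the fibre powers of `π` have proper solutions. -/
def FibrePowersSolvable {k Γ : Type} [Field k] [Group Γ]
    {L : IntermediateField k (AlgebraicClosure k)} (π : Γ →* (L ≃ₐ[k] L)) : Prop :=
  ∀ m : ℕ, ProperlySolvable (fibPr π m)

end Pool.Agent.Helper44q.T
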